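import Pool.Agent.Lib.helper24.GKKEx
import Pool.Agent.Lib.helper24.GKKSmall

set_option autoImplicit false

namespace Pool.Agent.Results.MP_ba9f40_al.NewtonFails

open Pool.Agent.Lib.helper24.GKK

/-- A stable GKK tau-matrix of order 4 with `c₂² < c₁ c₃`. -/
theorem result : ∃ A : Matrix (Fin 4) (Fin 4) ℂ,
    IsP A ∧ WeakSignSym A ∧ IsTau A ∧ IsStable A ∧
    ∃ c₁ c₂ c₃ : ℝ, cc A 1 = (c₁ : ℂ) ∧ cc A 2 = (c₂ : ℂ) ∧ cc A 3 = (c₃ : ℂ) ∧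
      c₂ ^ 2 < c₁ * c₃ := by
  obtain ⟨_, e1, e2, e3, _⟩ := exN_E
  refine ⟨toC exN, exN_isP, exN_weak, exN_isTau, stable4 _ exN_isP exN_weak,
    7 / 4, 5 / 8, 67 / 256, ?_, ?_, ?_, by norm_num⟩
  · rw [cc, sum_psub_toC, e1]; norm_num
  · rw [cc, sum_psub_toC, e2]; norm_num [Nat.choose]
  · rw [cc, sum_psub_toC, e3]; norm_num [Nat.choose]

end Pool.Agent.Results.MP_ba9f40_al.NewtonFails
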